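import Pool.Agent.H90.G.Tb0a926ef.R910.Mix.Defs

/-!
# Numerical equivalence: the conjecture of Hodge type and hard Lefschetz; definitions
-/

open CategoryTheory AlgebraicGeometry

universe u v

namespace Pool.Agent.R910.Num

open Pool.Agent.H914 Pool.Agent.H447 Pool.Agent.R910.Mix VarClass Obj

variable {k : Type u} [Field k] {𝒱 : VarClass k}

/-- The cycle `z` of codimension `q` is numerically equivalent to zero: its intersection numbers with
all cycles of the complementary codimension vanish. -/
def NumZero (ops : CycleOps 𝒱) (X : 𝒱.Obj) (q : ℕ) (z : X.Cycles) : Prop :=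
  ∀ l w, q + l = X.dim → X.IsCyc l w → X.V.degCycle (ops.mul z w) = 0

/-- The numerical form of the conjecture of Hodge type for `X` and the divisor `D` in codimension
`j`: let `n = dim X`, and let `z` be a cycle of codimension `j` with `D ^ (n - 2 j + 1) · z`
numerically equivalent to zero, but `z` not. Then the sign of the intersection number
`z · z · D ^ (n - 2 j)` is `(-1) ^ j`. -/
def NumHodgeTypeIn (ops : CycleOps 𝒱) (X : 𝒱.Obj) (D : X.Cycles) (j : ℕ) : Prop :=
  ∀ z, X.IsCyc j z → NumZero ops X (X.dim - j + 1) (divPow ops D (X.dim - 2 * j + 1) z) →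
    ¬ NumZero ops X j z →
    0 < (-1 : ℚ) ^ j * X.V.degCycle (ops.mul z (divPow ops D (X.dim - 2 * j) z))

/-- The mixed form of the hard Lefschetz theorem for cycles modulo numerical equivalence, for the
divisors in `A`: let `n = dim X`, and let the `n - 2 j` members of the list `L` be in `A`. Then the
product with all members of `L` is a bijection of the classes of codimension `j` onto those of
codimension `n - j`, modulo numerical equivalence. -/
def MixedNumLefschetz (ops : CycleOps 𝒱) (X : 𝒱.Obj) (A : Set X.Cycles) (j : ℕ) : Prop :=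
  ∀ L : List X.Cycles, (∀ D ∈ L, D ∈ A) → L.length = X.dim - 2 * j →
    (∀ z, X.IsCyc j z → NumZero ops X (X.dim - j) (mulList ops L z) → NumZero ops X j z) ∧
    ∀ z', X.IsCyc (X.dim - j) z' →
      ∃ z, X.IsCyc j z ∧ NumZero ops X (X.dim - j) (mulList ops L z - z')

/-- The mixed Hodge-Riemann relations for cycles modulo numerical equivalence, for the divisors in
`A`: let `n = dim X`, let `D₀` and the `n - 2 j` members of the list `L` be in `A`, and `z` a cycle of
codimension `j` whose product with `D₀` and all members of `L` is numerically equivalent to zero,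
but `z` is not. Then the sign of the intersection number of `z`, `z` and the members of `L` is
`(-1) ^ j`. -/
def MixedNumHodgeRiemann (ops : CycleOps 𝒱) (X : 𝒱.Obj) (A : Set X.Cycles) (j : ℕ) : Prop :=
  ∀ D₀ ∈ A, ∀ L : List X.Cycles, (∀ D ∈ L, D ∈ A) → L.length = X.dim - 2 * j →
    ∀ z, X.IsCyc j z → NumZero ops X (X.dim - j + 1) (ops.mul D₀ (mulList ops L z)) →
      ¬ NumZero ops X j z → 0 < (-1 : ℚ) ^ j * X.V.degCycle (ops.mul z (mulList ops L z))

/-- The morphism `f : Z ⟶ X` with `Z` in `𝒮` is a hyperplane section in the direction of the divisor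
`D` on `X`: `dim X = dim Z + 1`, the direct image of the fundamental class of `Z` is numerically
equivalent to a positive rational multiple of `D`, and the pull-backs of the members of `Amp X` are
in `Amp Z`. -/
def IsNumSection (ops : CycleOps 𝒱) (Amp : ∀ X : 𝒱.Obj, Set X.Cycles) {Z X : 𝒱.Obj} (f : Z ⟶ X)
    (D : X.Cycles) : Prop :=
  X.dim = Z.dim + 1 ∧
    (∃ c : ℚ, 0 < c ∧ NumZero ops X 1 (ops.push f Z.V.fundCycle - c • D)) ∧
    ∀ D' ∈ Amp X, ops.pull f D' ∈ Amp Z

/-- For the varieties `X` in the set `𝒮`, the sets `Amp X` of divisors (cycles of codimension one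
with rational coefficients) behave like the sets of all ample divisors, in codimensions `j ≤ i`: they
have positive degree, and if `dim X ≥ 2` and `D` is in `Amp X`, and `z` is a cycle of codimension `j`
with `2 j < dim X` which is not numerically equivalent to zero, then there is a hyperplane section
`f : Z ⟶ X` in the direction of `D`, with `Z` in `𝒮`, such that the pull-back of `z` to `Z` is not
numerically equivalent to zero. -/
structure IsNumAmpleSystem (ops : CycleOps 𝒱) (𝒮 : Set 𝒱.Obj)
    (Amp : ∀ X : 𝒱.Obj, Set X.Cycles) (i : ℕ) : Prop where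
  nonempty : ∀ X ∈ 𝒮, (Amp X).Nonempty
  isCyc : ∀ X ∈ 𝒮, ∀ D ∈ Amp X, X.IsCyc 1 D
  pos : ∀ X ∈ 𝒮, ∀ D ∈ Amp X, 0 < X.V.degCycle (divPow ops D X.dim X.V.fundCycle)
  sec : ∀ X ∈ 𝒮, 2 ≤ X.dim → ∀ D ∈ Amp X, ∀ j ≤ i, 2 * j < X.dim → ∀ z, X.IsCyc j z →
    ¬ NumZero ops X j z → ∃ Z ∈ 𝒮, ∃ f : Z ⟶ X, IsNumSection ops Amp f D ∧
      ¬ NumZero ops Z j (ops.pull f z)

/-- The variety `X` has a hyperplane section `f : Z ⟶ X` with `Z` in `𝒮`, in the direction of a member
of `Amp X`, for which the weak Lefschetz theorem for cycles of codimension `l` modulo numerical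
equivalence holds: every cycle of codimension `l` on `Z` is numerically equivalent to the
pull-back of a cycle on `X`. -/
def HasLefschetzSection (ops : CycleOps 𝒱) (𝒮 : Set 𝒱.Obj) (Amp : ∀ X : 𝒱.Obj, Set X.Cycles)
    (X : 𝒱.Obj) (l : ℕ) : Prop :=
  ∃ D ∈ Amp X, ∃ Z ∈ 𝒮, ∃ f : Z ⟶ X, IsNumSection ops Amp f D ∧
    ∀ w, Z.IsCyc l w → ∃ u, X.IsCyc l u ∧ NumZero ops Z l (ops.pull f u - w)

/-- The weak Lefschetz theorem for the morphism `f : Z ⟶ X` and cycles of codimension `l` modulo
numerical equivalence: the pull-back is a bijection of the classes of codimension `l` on `X` onto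
those on `Z`. -/
def NumWeakLefschetz (ops : CycleOps 𝒱) {Z X : 𝒱.Obj} (f : Z ⟶ X) (l : ℕ) : Prop :=
  (∀ u, X.IsCyc l u → NumZero ops Z l (ops.pull f u) → NumZero ops X l u) ∧
    ∀ w, Z.IsCyc l w → ∃ u, X.IsCyc l u ∧ NumZero ops Z l (ops.pull f u - w)

/-- The self-intersection formula for the hyperplane section `f : Z ⟶ X` in the direction of `D`:
if the direct image of the fundamental class of `Z` is `c D` up to numerical equivalence, then
the intersection number of the direct images of two cycles `w`, `v` on `Z` is `c` times the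
intersection number of `w`, `v` and the pull-back of `D` on `Z`. -/
def SelfIntersection (ops : CycleOps 𝒱) {Z X : 𝒱.Obj} (f : Z ⟶ X) (D : X.Cycles) : Prop :=
  ∀ c : ℚ, NumZero ops X 1 (ops.push f Z.V.fundCycle - c • D) →
    ∀ l m w v, l + m + 1 = Z.dim → Z.IsCyc l w → Z.IsCyc m v →
      X.V.degCycle (ops.mul (ops.push f w) (ops.push f v)) =
        c * Z.V.degCycle (ops.mul (ops.pull f D) (ops.mul w v))

end Pool.Agent.R910.Num
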