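import Pool.Agent.H90.G.Tb0a926ef.R910.Mix.Ind

/-!
# The mixed Hodge-Riemann relations, for classes modulo numerical equivalence
-/

open Set

universe u v

namespace Pool.Agent.R910.Num

open Pool.Agent.R910.Mix

/-- The preceding graded piece. -/
def prevF {F V : Type*} [Field F] [AddCommGroup V] [Module F V] (gr : ℕ → Submodule F V) :
    ℕ → Submodule F V
  | 0 => ⊥
  | j + 1 => gr j

section structures

variable (F : Type) [Field F] [LinearOrder F] {Obj : Type u} (dim : Obj → ℕ) (V : Obj → Type v)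
  [∀ X, CommRing (V X)] [∀ X, Algebra F (V X)] (gr : ∀ X, ℕ → Submodule F (V X))
  (deg : ∀ X, V X →ₗ[F] F) (amp : ∀ X, Set (V X))

/-- A hyperplane section in the direction `a`. -/
structure Sec {X Z : Obj} (a : V X) (ρ : V X →ₐ[F] V Z) (c : F) : Prop where
  dim_eq : dim X = dim Z + 1
  pos : 0 < c
  mem : ∀ j, ∀ x ∈ gr X j, ρ x ∈ gr Z j
  deg_eq : ∀ x, deg Z (ρ x) = c * deg X (a * x)
  amp_mem : ∀ b ∈ amp X, ρ b ∈ amp Z

/-- A system of graded algebras with restrictions to hyperplane sections. -/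
structure HRCore (i : ℕ) : Prop where
  mul_mem : ∀ X, ∀ a ∈ gr X 1, ∀ j, ∀ x ∈ gr X j, a * x ∈ gr X (j + 1)
  amp_mem : ∀ X, ∀ a ∈ amp X, a ∈ gr X 1
  amp_nonempty : ∀ X, (amp X).Nonempty
  finite : ∀ X, ∀ j ≤ i, 2 * j ≤ dim X → Module.Finite F (gr X j)
  one : ∀ X, gr X 0 = Submodule.span F {1}
  pos : ∀ X, ∀ a ∈ amp X, 0 < deg X (a ^ dim X)
  nondeg : ∀ X, ∀ j ≤ i, 2 * j ≤ dim X → ∀ y ∈ gr X (dim X - j),
    (∀ x ∈ gr X j, deg X (x * y) = 0) → y = 0
  sec : ∀ X, 2 ≤ dim X → ∀ a ∈ amp X, ∀ j ≤ i, 2 * j < dim X → ∀ x ∈ gr X j, x ≠ 0 →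
    ∃ (Z : Obj) (ρ : V X →ₐ[F] V Z) (c : F), Sec F dim V gr deg amp a ρ c ∧ ρ x ≠ 0
  seed : ∀ X, ∀ j, 1 ≤ j → j ≤ i → 2 * j ≤ dim X →
    (∃ a ∈ amp X, ∀ x ∈ gr X j, x ≠ 0 →
      (∀ w ∈ prevF (gr X) j, deg X (x * w * (a * a ^ (dim X - 2 * j))) = 0) →
      0 < (-1 : F) ^ j * deg X (x * x * a ^ (dim X - 2 * j))) ∨
    (2 * j < dim X ∧ ∃ a ∈ amp X, ∃ (Z : Obj) (ρ : V X →ₐ[F] V Z) (c : F),
      Sec F dim V gr deg amp a ρ c ∧
      ∀ w ∈ prevF (gr Z) j, ∃ u ∈ prevF (gr X) j, ρ u = w)

end structures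

/-- The Hodge-Riemann relations for `X`. -/
def HRatR (i : ℕ) {Obj : Type u} (dim : Obj → ℕ) (V : Obj → Type v)
    [∀ X, CommRing (V X)] [∀ X, Algebra ℝ (V X)] (gr : ∀ X, ℕ → Submodule ℝ (V X))
    (deg : ∀ X, V X →ₗ[ℝ] ℝ) (amp : ∀ X, Set (V X)) (X : Obj) : Prop :=
  ∀ j ≤ i, 2 * j ≤ dim X → ∀ D₀, Cone (amp X) D₀ → ∀ l : List (V X),
    (∀ D ∈ l, Cone (amp X) D) → l.length = dim X - 2 * j → ∀ x ∈ gr X j, x ≠ 0 →
    (∀ w ∈ prevF (gr X) j, deg X (x * w * (D₀ * l.prod)) = 0) →
    0 < (-1 : ℝ) ^ j * deg X (x * x * l.prod)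

namespace HRCore

variable {i : ℕ} {Obj : Type u} {dim : Obj → ℕ} {V : Obj → Type v}
    [∀ X, CommRing (V X)] [∀ X, Algebra ℝ (V X)] {gr : ∀ X, ℕ → Submodule ℝ (V X)}
    {deg : ∀ X, V X →ₗ[ℝ] ℝ} {amp : ∀ X, Set (V X)} (S : HRCore ℝ dim V gr deg amp i)

include S

lemma cone_mem {X : Obj} {a : V X} (ha : Cone (amp X) a) : a ∈ gr X 1 := by
  induction ha with
  | gen _ ha => exact Submodule.smul_mem _ _ (S.amp_mem X _ ha)
  | add _ _ iha ihb => exact Submodule.add_mem _ iha ihb

lemma list_mem {X : Obj} (l : List (V X)) (hl : ∀ D ∈ l, Cone (amp X) D) {j : ℕ} {x : V X}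
    (hx : x ∈ gr X j) : l.prod * x ∈ gr X (j + l.length) := by
  induction l with
  | nil => simpa using hx
  | cons D l ih =>
    rw [List.prod_cons, mul_assoc, List.length_cons, ← add_assoc]
    exact S.mul_mem X D (S.cone_mem (hl D (by simp))) _ _ (ih (fun D hD => hl D (by simp [hD])))

lemma pow_mem {X : Obj} {a : V X} (ha : a ∈ amp X) {j : ℕ} {x : V X} (hx : x ∈ gr X j) (k : ℕ) :
    a ^ k * x ∈ gr X (j + k) := by
  have := S.list_mem (List.replicate k a) (fun D hD => by
    rw [List.eq_of_mem_replicate hD]; exact Cone.of ha) hx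
  rwa [List.prod_replicate, List.length_replicate] at this

lemma one_ne {X : Obj} : (1 : V X) ≠ 0 := by
  intro h
  obtain ⟨a, ha⟩ := S.amp_nonempty X
  have h1 := S.pos X a ha
  have h2 : a ^ dim X = 0 := by rw [← mul_one (a ^ dim X), h, mul_zero]
  rw [h2, map_zero] at h1
  exact lt_irrefl _ h1

/-- Positivity of degrees. -/
lemma deg_pos : ∀ (m : ℕ) (X : Obj), dim X = m → ∀ l : List (V X),
    (∀ D ∈ l, Cone (amp X) D) → l.length = m → 0 < deg X l.prod := by
  intro m
  induction m with
  | zero =>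
    intro X hX l hl hlen
    obtain ⟨a, ha⟩ := S.amp_nonempty X
    have h1 := S.pos X a ha
    rw [hX, pow_zero] at h1
    rw [List.length_eq_zero_iff.1 hlen, List.prod_nil]
    exact h1
  | succ m ih =>
    intro X hX l hl hlen
    match l, hlen with
    | D :: l', hlen =>
      rw [List.length_cons, Nat.add_right_cancel_iff] at hlen
      have key : ∀ a, Cone (amp X) a → 0 < deg X (a * l'.prod) := by
        intro a ha
        induction ha with
        | @gen c a hc ha =>
          rw [smul_mul_assoc, map_smul, smul_eq_mul]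
          apply mul_pos hc
          by_cases hm : m = 0
          · subst hm
            rw [List.length_eq_zero_iff.1 hlen, List.prod_nil, mul_one]
            have h1 := S.pos X a ha
            rwa [hX, zero_add, pow_one] at h1
          · obtain ⟨Z, ρ, c', hsec, -⟩ := S.sec X (by omega) a ha 0 (Nat.zero_le _) (by omega) 1
              (by rw [S.one X]; exact Submodule.mem_span_singleton_self 1) S.one_ne
            have hdim := hsec.dim_eq
            have h1 := ih Z (by omega) (l'.map ρ) (by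
              intro D' hD'
              obtain ⟨E, hE, rfl⟩ := List.mem_map.1 hD'
              exact (hl E (by simp [hE])).map ρ hsec.amp_mem) (by rw [List.length_map, hlen])
            rw [← map_list_prod, hsec.deg_eq] at h1
            exact (pos_iff_pos_of_mul_pos h1).1 hsec.pos
        | add _ _ iha ihb => rw [add_mul, map_add]; exact add_pos iha ihb
      rw [List.prod_cons]
      exact key D (hl D (by simp))

/-- Nondegeneracy of the mixed forms. -/
lemma nd {X : Obj} (ih : ∀ Z, dim Z < dim X → HRatR i dim V gr deg amp Z) {j : ℕ} (hj : j ≤ i)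
    (hj2 : 2 * j ≤ dim X) (l : List (V X)) (hl : ∀ D ∈ l, Cone (amp X) D)
    (hlen : l.length = dim X - 2 * j) {x : V X} (hx : x ∈ gr X j)
    (h0 : ∀ y ∈ gr X j, deg X (x * y * l.prod) = 0) : x = 0 := by
  rcases Nat.eq_zero_or_pos j with rfl | hj0
  · rw [S.one X] at hx
    obtain ⟨r, rfl⟩ := Submodule.mem_span_singleton.1 hx
    have h1 := S.deg_pos _ X rfl l hl (by omega)
    have h2 := h0 1 (by rw [S.one X]; exact Submodule.mem_span_singleton_self 1)
    rw [mul_one, smul_mul_assoc, one_mul, map_smul, smul_eq_mul] at h2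
    rcases mul_eq_zero.1 h2 with h3 | h3
    · rw [h3, zero_smul]
    · exact absurd h3 h1.ne'
  match l, hlen with
  | [], hlen =>
    rw [List.length_nil] at hlen
    apply S.nondeg X j hj hj2 x (by rwa [show dim X - j = j by omega])
    intro y hy
    have := h0 y hy
    rw [List.prod_nil, mul_one] at this
    rwa [mul_comm]
  | D₁ :: l', hlen =>
    rw [List.length_cons] at hlen
    have hprod : D₁ * l'.prod * x = 0 := by
      have h1 := S.list_mem (D₁ :: l') hl hx
      rw [List.length_cons, show j + (l'.length + 1) = dim X - j by omega, List.prod_cons] at h1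
      apply S.nondeg X j hj hj2 _ h1
      intro y hy
      have h2 := h0 y hy
      rw [List.prod_cons] at h2
      rw [← h2]
      congr 1
      ring
    by_contra hx0
    have key : ∀ a, Cone (amp X) a → 0 < (-1 : ℝ) ^ j * deg X (a * (x * x * l'.prod)) := by
      intro a ha
      induction ha with
      | @gen c a hc ha =>
        obtain ⟨Z, ρ, c', hsec, hρ⟩ := S.sec X (by omega) a ha j hj (by omega) x hx hx0
        have hdim := hsec.dim_eq
        have h1 := ih Z (by omega) j hj (by omega) (ρ D₁) ((hl D₁ (by simp)).map ρ hsec.amp_mem)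
          (l'.map ρ) (by
            intro D' hD'
            obtain ⟨E, hE, rfl⟩ := List.mem_map.1 hD'
            exact (hl E (by simp [hE])).map ρ hsec.amp_mem) (by rw [List.length_map]; omega) (ρ x)
          (hsec.mem j x hx) hρ (by
            intro w _
            rw [← map_list_prod]
            have e1 : ρ x * w * (ρ D₁ * ρ l'.prod) = w * ρ (D₁ * l'.prod * x) := by
              rw [map_mul, map_mul]; ring
            rw [e1, hprod, map_zero, mul_zero, map_zero])
        rw [← map_list_prod, ← map_mul, ← map_mul, hsec.deg_eq] at h1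
        rw [smul_mul_assoc, map_smul, smul_eq_mul]
        have h2 : (-1 : ℝ) ^ j * (c' * deg X (a * (x * x * l'.prod))) =
            c' * ((-1 : ℝ) ^ j * deg X (a * (x * x * l'.prod))) := by ring
        rw [h2] at h1
        have h3 := (pos_iff_pos_of_mul_pos h1).1 hsec.pos
        have h4 : (-1 : ℝ) ^ j * (c * deg X (a * (x * x * l'.prod))) =
            c * ((-1 : ℝ) ^ j * deg X (a * (x * x * l'.prod))) := by ring
        rw [h4]
        exact mul_pos hc h3
      | add _ _ iha ihb =>
        rw [add_mul, map_add, mul_add]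
        exact add_pos iha ihb
    have h1 := key D₁ (hl D₁ (by simp))
    have e1 : D₁ * (x * x * l'.prod) = x * (D₁ * l'.prod * x) := by ring
    rw [e1, hprod, mul_zero, map_zero, mul_zero] at h1
    exact lt_irrefl _ h1

omit S in
/-- Continuity of the products along the segments. -/
lemma continuous_prod {X : Obj} (a : V X) (l : List (V X)) : ∀ φ : V X →ₗ[ℝ] ℝ,
    Continuous fun s : ℝ => φ ((l.map fun D => (1 - s) • a + s • D).prod) := by
  induction l with
  | nil => intro φ; simpa using continuous_const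
  | cons D l ih =>
    intro φ
    have h1 := ih (φ ∘ₗ LinearMap.mulLeft ℝ a)
    have h2 := ih (φ ∘ₗ LinearMap.mulLeft ℝ D)
    have h3 : (fun s : ℝ => φ (((D :: l).map fun D => (1 - s) • a + s • D).prod)) = fun s : ℝ =>
        (1 - s) * (φ ∘ₗ LinearMap.mulLeft ℝ a) ((l.map fun D => (1 - s) • a + s • D).prod) +
        s * (φ ∘ₗ LinearMap.mulLeft ℝ D) ((l.map fun D => (1 - s) • a + s • D).prod) := by
      funext s
      rw [List.map_cons, List.prod_cons, add_mul, smul_mul_assoc, smul_mul_assoc, map_add,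
        map_smul, map_smul]
      rfl
    rw [h3]
    exact ((continuous_const.sub continuous_id).mul h1).add (continuous_id.mul h2)

/-- The Hodge-Riemann relations for one polarization. -/
lemma base {X : Obj} (ih : ∀ Z, dim Z < dim X → HRatR i dim V gr deg amp Z) {j : ℕ}
    (hj0 : 1 ≤ j) (hj : j ≤ i) (hj2 : 2 * j ≤ dim X) : ∃ a ∈ amp X, ∀ x ∈ gr X j, x ≠ 0 →
      (∀ w ∈ prevF (gr X) j, deg X (x * w * (a * a ^ (dim X - 2 * j))) = 0) →
      0 < (-1 : ℝ) ^ j * deg X (x * x * a ^ (dim X - 2 * j)) := by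
  rcases S.seed X j hj0 hj hj2 with h | ⟨hlt, a, ha, Z, ρ, c, hsec, honto⟩
  · exact h
  refine ⟨a, ha, fun x hx hx0 hw => ?_⟩
  have hdim := hsec.dim_eq
  have hρ : ρ x ≠ 0 := by
    intro h
    apply hx0
    apply S.nd ih hj (by omega) (List.replicate (dim X - 2 * j) a) (by
      intro D hD
      rw [List.eq_of_mem_replicate hD]; exact Cone.of ha) List.length_replicate hx
    intro y _
    rw [List.prod_replicate]
    have h2 := hsec.deg_eq (a ^ (dim X - 2 * j - 1) * x * y)
    rw [map_mul ρ, map_mul ρ, h, mul_zero, zero_mul, map_zero] at h2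
    have h3 : x * y * a ^ (dim X - 2 * j) = a * (a ^ (dim X - 2 * j - 1) * x * y) := by
      conv_lhs => rw [show dim X - 2 * j = (dim X - 2 * j - 1) + 1 by omega, pow_succ]
      ring
    rw [h3]
    rcases mul_eq_zero.1 h2.symm with h4 | h4
    · exact absurd h4 hsec.pos.ne'
    · exact h4
  have h3 := ih Z (by omega) j hj (by omega) (ρ a) (Cone.of (hsec.amp_mem a ha))
    (List.replicate (dim Z - 2 * j) (ρ a)) (by
      intro D hD
      rw [List.eq_of_mem_replicate hD]; exact Cone.of (hsec.amp_mem a ha))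
    (List.length_replicate) (ρ x) (hsec.mem _ x hx) hρ (by
      intro w hw'
      obtain ⟨u, hu, rfl⟩ := honto w hw'
      rw [List.prod_replicate]
      have e1 : ρ x * ρ u * (ρ a * ρ a ^ (dim Z - 2 * j)) =
          ρ (x * u * a ^ (dim X - 2 * j)) := by
        rw [map_mul, map_mul, map_pow, show dim X - 2 * j = (dim Z - 2 * j) + 1 by omega,
          pow_succ']
      rw [e1, hsec.deg_eq, show a * (x * u * a ^ (dim X - 2 * j)) =
        x * u * (a * a ^ (dim X - 2 * j)) by ring, hw u hu, mul_zero])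
  rw [List.prod_replicate, ← map_pow, ← map_mul, ← map_mul, hsec.deg_eq] at h3
  have e2 : a * (x * x * a ^ (dim Z - 2 * j)) = x * x * a ^ (dim X - 2 * j) := by
    rw [show dim X - 2 * j = (dim Z - 2 * j) + 1 by omega, pow_succ]
    ring
  rw [e2] at h3
  have e3 : (-1 : ℝ) ^ j * (c * deg X (x * x * a ^ (dim X - 2 * j))) =
      c * ((-1 : ℝ) ^ j * deg X (x * x * a ^ (dim X - 2 * j))) := by ring
  rw [e3] at h3
  exact (pos_iff_pos_of_mul_pos h3).1 hsec.pos

/-- **The mixed Hodge-Riemann relations.** -/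
theorem main : ∀ X, HRatR i dim V gr deg amp X := by
  intro X
  induction hm : dim X using Nat.strong_induction_on generalizing X with
  | _ m ih =>
    subst hm
    replace ih : ∀ Z, dim Z < dim X → HRatR i dim V gr deg amp Z := fun Z hZ => ih _ hZ Z rfl
    intro j hj hj2 D₀ hD₀ l hl hlen x hx hx0 hw
    rcases Nat.eq_zero_or_pos j with rfl | hj0
    · rw [S.one X] at hx
      obtain ⟨r, rfl⟩ := Submodule.mem_span_singleton.1 hx
      have h1 := S.deg_pos _ X rfl l hl (by omega)
      have hr : r ≠ 0 := by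
        rintro rfl
        exact hx0 (zero_smul _ _)
      have e1 : r • (1 : V X) * r • (1 : V X) * l.prod = (r * r) • l.prod := by
        rw [smul_mul_smul_comm, one_mul, smul_mul_assoc, one_mul]
      rw [e1, map_smul, smul_eq_mul, pow_zero, one_mul]
      exact mul_pos (mul_self_pos.2 hr) h1
    obtain ⟨a, ha, hbase⟩ := S.base ih hj0 hj hj2
    obtain ⟨j', rfl⟩ : ∃ j', j = j' + 1 := ⟨j - 1, by omega⟩
    have hfin := S.finite X (j' + 1) hj hj2
    have hfin' : Module.Finite ℝ (prevF (gr X) (j' + 1)) := S.finite X j' (by omega) (by omega)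
    have hcone : ∀ s ∈ Icc (0 : ℝ) 1, ∀ D ∈ l.map (fun D => (1 - s) • a + s • D),
        Cone (amp X) D := by
      intro s hs D hD
      obtain ⟨E, hE, rfl⟩ := List.mem_map.1 hD
      exact (Cone.of ha).segment (hl E hE) hs
    have key := hr_path (deg := deg X) (N := gr X (j' + 1)) (N' := prevF (gr X) (j' + 1))
      (ε := (-1 : ℝ) ^ (j' + 1)) (pow_ne_zero _ (by norm_num))
      (fun s => (1 - s) • a + s • D₀) (fun s => (l.map fun D => (1 - s) • a + s • D).prod)
      (fun s hs w hw => S.mul_mem X _ (S.cone_mem ((Cone.of ha).segment hD₀ hs)) j' w hw)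
      (continuous_prod a l)
      (continuous_prod a (D₀ :: l))
      (by
        intro φ
        have := continuous_prod a (D₀ :: D₀ :: l) φ
        simpa only [List.map_cons, List.prod_cons, mul_assoc] using this)
      (fun s hs x hx h0 => S.nd ih hj hj2 _ (hcone s hs) (by rw [List.length_map, hlen]) hx h0)
      (fun s hs w hw h0 => S.nd ih (j := j') (by omega) (by omega)
        (((1 - s) • a + s • D₀) :: ((1 - s) • a + s • D₀) ::
          l.map fun D => (1 - s) • a + s • D)
        (by
          intro D hD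
          rcases List.mem_cons.1 hD with rfl | hD
          · exact (Cone.of ha).segment hD₀ hs
          rcases List.mem_cons.1 hD with rfl | hD
          · exact (Cone.of ha).segment hD₀ hs
          exact hcone s hs D hD)
        (by rw [List.length_cons, List.length_cons, List.length_map, hlen]; omega) hw
        (by
          intro w' hw'
          rw [List.prod_cons, List.prod_cons, ← mul_assoc ((1 - s) • a + s • D₀)]
          exact h0 w' hw'))
      (by
        intro x hx hx0 hw
        have e1 : (List.map (fun _ => a) l).prod = a ^ (dim X - 2 * (j' + 1)) := by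
          rw [List.map_const', List.prod_replicate, hlen]
        simp only [sub_zero, one_smul, zero_smul, add_zero, e1] at hw ⊢
        exact hbase x hx hx0 hw) x hx hx0
    simp only [sub_self, one_smul, zero_smul, zero_add, List.map_id'] at key
    exact key hw

end HRCore

end Pool.Agent.R910.Num
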