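import Pool.Agent.H90.G.Tb0a926ef.R910.Num.Tensor
import Pool.Agent.H90.G.Tb0a926ef.R910.Num.Ind

/-!
# From the rational numbers to the real numbers and back
-/

open TensorProduct

universe u v

namespace Pool.Agent.R910.Num

open Pool.Agent.R910.Mix (Cone)

namespace HRCore

variable {i : ℕ} {Obj : Type u} {dim : Obj → ℕ} {V : Obj → Type v}
    [∀ X, CommRing (V X)] [∀ X, Algebra ℚ (V X)] {gr : ∀ X, ℕ → Submodule ℚ (V X)}
    {deg : ∀ X, V X →ₗ[ℚ] ℚ} {amp : ∀ X, Set (V X)}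

lemma _root_.Pool.Agent.R910.Num.Sec.real {X Z : Obj} {a : V X} {ρ : V X →ₐ[ℚ] V Z} {c : ℚ}
    (h : Sec ℚ dim V gr deg amp a ρ c) :
    Sec ℝ dim (fun X => ℝ ⊗[ℚ] V X) (fun X j => grT (gr X j)) (fun X => degT (deg X))
      (fun X => (fun a : V X => (1 : ℝ) ⊗ₜ[ℚ] a) '' amp X) ((1 : ℝ) ⊗ₜ[ℚ] a) (mapT ρ) (c : ℝ) where
  dim_eq := h.dim_eq
  pos := by exact_mod_cast h.pos
  mem j x hx := mapT_mem (h.mem j) hx
  deg_eq x := degT_map h.deg_eq x
  amp_mem := by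
    rintro _ ⟨b, hb, rfl⟩
    exact ⟨ρ b, h.amp_mem b hb, (mapT_tmul ρ 1 b).symm⟩

lemma one_tmul_ne {A : Type*} [CommRing A] [Algebra ℚ A] {x : A} (hx : x ≠ 0) :
    (1 : ℝ) ⊗ₜ[ℚ] x ≠ 0 := by
  obtain ⟨g, hg⟩ := LinearMap.exists_leftInverse_of_injective (Algebra.linearMap ℚ ℝ)
    (LinearMap.ker_eq_bot.2 (algebraMap ℚ ℝ).injective)
  have h1 : g 1 = 1 := by
    have := congrArg (fun F => F 1) hg
    simpa using this
  intro h
  have h2 := congrArg (lamT g) h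
  rw [lamT_tmul, h1, one_smul, map_zero] at h2
  exact hx h2

/-- Real coefficients. -/
theorem real (S : HRCore ℚ dim V gr deg amp i) :
    HRCore ℝ dim (fun X => ℝ ⊗[ℚ] V X) (fun X j => grT (gr X j)) (fun X => degT (deg X))
      (fun X => (fun a : V X => (1 : ℝ) ⊗ₜ[ℚ] a) '' amp X) i where
  mul_mem X a ha j x hx := grT_mul (fun a ha b hb => S.mul_mem X a ha j b hb) ha hx
  amp_mem := by
    rintro X _ ⟨a, ha, rfl⟩
    exact mem_grT (S.amp_mem X a ha) 1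
  amp_nonempty X := (S.amp_nonempty X).image _
  finite X j hj hj2 := finT (S.finite X j hj hj2)
  one X := by
    show grT (gr X 0) = _
    rw [S.one X, grT_one]
  pos := by
    rintro X _ ⟨a, ha, rfl⟩
    show 0 < degT (deg X) (((1 : ℝ) ⊗ₜ[ℚ] a) ^ dim X)
    rw [degT_pow]
    exact_mod_cast S.pos X a ha
  nondeg X j hj hj2 y hy h0 := nondegT (S.nondeg X j hj hj2) hy h0
  sec := by
    rintro X hX _ ⟨a, ha, rfl⟩ j hj hj2 x hx hx0
    obtain ⟨lam, hlam⟩ : ∃ lam : ℝ →ₗ[ℚ] ℚ, lamT lam x ≠ 0 := by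
      by_contra h
      push Not at h
      exact hx0 (sepT h)
    obtain ⟨Z, ρ, c, hsec, hρ⟩ := S.sec X hX a ha j hj hj2 _ (lamT_mem hx lam) hlam
    refine ⟨Z, mapT ρ, c, hsec.real, fun h => hρ ?_⟩
    rw [← lamT_map, h, map_zero]
  seed := by
    intro X j hj0 hj hj2
    obtain ⟨j', rfl⟩ : ∃ j', j = j' + 1 := ⟨j - 1, by omega⟩
    rcases S.seed X (j' + 1) hj0 hj hj2 with ⟨a, ha, h⟩ | ⟨hlt, a, ha, Z, ρ, c, hsec, honto⟩
    · left
      refine ⟨_, ⟨a, ha, rfl⟩, fun x hx hx0 hw => ?_⟩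
      set m := dim X - 2 * (j' + 1) with hm
      let φ : V X →ₗ[ℚ] ℚ := ((-1 : ℚ) ^ (j' + 1)) • (deg X ∘ₗ LinearMap.mulRight ℚ (a ^ m))
      let P : Submodule ℚ (V X) :=
        { carrier := {b | b ∈ gr X (j' + 1) ∧
            ∀ w ∈ prevF (gr X) (j' + 1), deg X (b * w * (a * a ^ m)) = 0}
          add_mem' := fun {b c} hb hc => ⟨Submodule.add_mem _ hb.1 hc.1, fun w hw => by
            rw [add_mul, add_mul, map_add, hb.2 w hw, hc.2 w hw, add_zero]⟩
          zero_mem' := ⟨Submodule.zero_mem _, fun w _ => by rw [zero_mul, zero_mul, map_zero]⟩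
          smul_mem' := fun q b hb => ⟨Submodule.smul_mem _ q hb.1, fun w hw => by
            rw [smul_mul_assoc, smul_mul_assoc, map_smul, hb.2 w hw, smul_zero]⟩ }
      have hφ : ∀ b, φ b = (-1 : ℚ) ^ (j' + 1) * deg X (b * a ^ m) := fun b => rfl
      have hpos : ∀ b ∈ P, b ≠ 0 → 0 < φ (b * b) := by
        rintro b ⟨hb1, hb2⟩ hb0
        rw [hφ]
        exact h b hb1 hb0 hb2
      have hxP : ∀ lam : ℝ →ₗ[ℚ] ℚ, lamT lam x ∈ P := by
        intro lam
        refine ⟨lamT_mem hx lam, fun w hw' => ?_⟩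
        have h1 := hw ((1 : ℝ) ⊗ₜ[ℚ] w) (mem_grT (N := gr X j') hw' 1)
        have h2 : x * (1 : ℝ) ⊗ₜ[ℚ] w * ((1 : ℝ) ⊗ₜ[ℚ] a * ((1 : ℝ) ⊗ₜ[ℚ] a) ^ m) =
            ((1 : ℝ) ⊗ₜ[ℚ] (w * (a * a ^ m))) * x := by
          have h4 : (1 : ℝ) ⊗ₜ[ℚ] (w * (a * a ^ m)) =
              (1 : ℝ) ⊗ₜ[ℚ] w * ((1 : ℝ) ⊗ₜ[ℚ] a * ((1 : ℝ) ⊗ₜ[ℚ] a) ^ m) := by
            rw [Algebra.TensorProduct.tmul_pow, one_pow, Algebra.TensorProduct.tmul_mul_tmul,
              Algebra.TensorProduct.tmul_mul_tmul, one_mul, one_mul]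
          rw [h4]
          ring
        replace h1 : degT (deg X) (x * (1 : ℝ) ⊗ₜ[ℚ] w *
          ((1 : ℝ) ⊗ₜ[ℚ] a * ((1 : ℝ) ⊗ₜ[ℚ] a) ^ m)) = 0 := h1
        rw [h2] at h1
        have h3 := lam_degT (deg X) lam (((1 : ℝ) ⊗ₜ[ℚ] (w * (a * a ^ m))) * x)
        rw [h1, map_zero, lamT_mul] at h3
        rw [mul_assoc, mul_comm]
        exact h3.symm
      have h1 := posT hpos hxP hx0
      have h2 : ∀ v : ℝ ⊗[ℚ] V X, degT φ v =
          (-1 : ℝ) ^ (j' + 1) * degT (deg X) (v * ((1 : ℝ) ⊗ₜ[ℚ] a) ^ m) := by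
        intro v
        induction v using TensorProduct.induction_on with
        | zero => rw [map_zero, zero_mul, map_zero, mul_zero]
        | tmul r b =>
          rw [Algebra.TensorProduct.tmul_pow, one_pow, Algebra.TensorProduct.tmul_mul_tmul,
            degT_tmul, degT_tmul, hφ]
          push_cast
          ring
        | add v w hv hw => rw [map_add, add_mul, map_add, mul_add, hv, hw]
      rw [h2] at h1
      exact h1
    · right
      refine ⟨hlt, _, ⟨a, ha, rfl⟩, Z, mapT ρ, c, hsec.real, fun w hw => ?_⟩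
      exact surjT (N := gr X j') (N' := gr Z j') honto hw

/-- **The mixed Hodge-Riemann relations over the rational numbers.** -/
theorem rat (S : HRCore ℚ dim V gr deg amp i) (X : Obj) {j : ℕ} (hj : j ≤ i)
    (hj2 : 2 * j ≤ dim X) {D₀ : V X} (hD₀ : D₀ ∈ amp X) (l : List (V X))
    (hl : ∀ D ∈ l, D ∈ amp X) (hlen : l.length = dim X - 2 * j) {x : V X} (hx : x ∈ gr X j)
    (hx0 : x ≠ 0) (hw : ∀ w ∈ prevF (gr X) j, deg X (x * w * (D₀ * l.prod)) = 0) :
    0 < (-1 : ℚ) ^ j * deg X (x * x * l.prod) := by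
  have hprod : (l.map fun a : V X => (1 : ℝ) ⊗ₜ[ℚ] a).prod = (1 : ℝ) ⊗ₜ[ℚ] l.prod := by
    clear hl hlen hw
    induction l with
    | nil => rfl
    | cons D l ih =>
      rw [List.map_cons, List.prod_cons, ih, Algebra.TensorProduct.tmul_mul_tmul, one_mul,
        List.prod_cons]
  have key := S.real.main X j hj hj2 ((1 : ℝ) ⊗ₜ[ℚ] D₀) (Cone.of ⟨D₀, hD₀, rfl⟩)
    (l.map fun a : V X => (1 : ℝ) ⊗ₜ[ℚ] a) (by
      intro D hD
      obtain ⟨E, hE, rfl⟩ := List.mem_map.1 hD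
      exact Cone.of ⟨E, hl E hE, rfl⟩) (by rw [List.length_map, hlen]) ((1 : ℝ) ⊗ₜ[ℚ] x)
    (mem_grT hx 1) (one_tmul_ne hx0) (by
      intro w hw'
      rw [hprod]
      match j, hw, hw' with
      | 0, hw, hw' =>
        have h1 : w = 0 := hw'
        rw [h1, mul_zero, zero_mul, map_zero]
      | j' + 1, hw, hw' =>
        refine Submodule.span_induction (p := fun w _ => degT (deg X) ((1 : ℝ) ⊗ₜ[ℚ] x * w *
          ((1 : ℝ) ⊗ₜ[ℚ] D₀ * (1 : ℝ) ⊗ₜ[ℚ] l.prod)) = 0) ?_ ?_ ?_ ?_ hw'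
        · rintro _ ⟨b, hb, rfl⟩
          show degT (deg X) ((1 : ℝ) ⊗ₜ[ℚ] x * (1 : ℝ) ⊗ₜ[ℚ] b *
            ((1 : ℝ) ⊗ₜ[ℚ] D₀ * (1 : ℝ) ⊗ₜ[ℚ] l.prod)) = 0
          rw [Algebra.TensorProduct.tmul_mul_tmul, Algebra.TensorProduct.tmul_mul_tmul,
            Algebra.TensorProduct.tmul_mul_tmul, one_mul, one_mul, degT_tmul, hw b hb,
            Rat.cast_zero, mul_zero]
        · rw [mul_zero, zero_mul, map_zero]
        · intro y z _ _ hy hz
          rw [mul_add, add_mul, map_add, hy, hz, add_zero]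
        · intro c y _ hy
          rw [mul_smul_comm, smul_mul_assoc, map_smul, hy, smul_zero])
  rw [hprod, Algebra.TensorProduct.tmul_mul_tmul, Algebra.TensorProduct.tmul_mul_tmul, one_mul,
    one_mul, degT_tmul, one_mul] at key
  exact_mod_cast key

lemma mem_list (S : HRCore ℚ dim V gr deg amp i) {X : Obj} (l : List (V X))
    (hl : ∀ D ∈ l, D ∈ amp X) {j : ℕ} {x : V X} (hx : x ∈ gr X j) :
    l.prod * x ∈ gr X (j + l.length) := by
  induction l with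
  | nil => simpa using hx
  | cons D l ih =>
    rw [List.prod_cons, mul_assoc, List.length_cons, ← add_assoc]
    exact S.mul_mem X D (S.amp_mem X D (hl D (by simp))) _ _
      (ih (fun D hD => hl D (by simp [hD])))

/-- **Mixed hard Lefschetz: injectivity.** -/
theorem inj (S : HRCore ℚ dim V gr deg amp i) (X : Obj) {j : ℕ} (hj : j ≤ i)
    (hj2 : 2 * j ≤ dim X) (l : List (V X)) (hl : ∀ D ∈ l, D ∈ amp X)
    (hlen : l.length = dim X - 2 * j) {x : V X} (hx : x ∈ gr X j) (h0 : l.prod * x = 0) :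
    x = 0 := by
  by_contra hx0
  obtain ⟨D₀, hD₀⟩ := S.amp_nonempty X
  have h1 := S.rat X hj hj2 hD₀ l hl hlen hx hx0 (by
    intro w _
    rw [show x * w * (D₀ * l.prod) = w * D₀ * (l.prod * x) by ring, h0, mul_zero, map_zero])
  rw [mul_assoc, mul_comm x l.prod, h0, mul_zero, map_zero, mul_zero] at h1
  exact lt_irrefl _ h1

/-- **Mixed hard Lefschetz: surjectivity.** -/
theorem surj (S : HRCore ℚ dim V gr deg amp i) (X : Obj) {j : ℕ} (hj : j ≤ i)
    (hj2 : 2 * j ≤ dim X) (l : List (V X)) (hl : ∀ D ∈ l, D ∈ amp X)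
    (hlen : l.length = dim X - 2 * j) {y : V X} (hy : y ∈ gr X (dim X - j)) :
    ∃ x ∈ gr X j, l.prod * x = y := by
  have hfin := S.finite X j hj hj2
  set pair : gr X (dim X - j) →ₗ[ℚ] Module.Dual ℚ (gr X j) :=
    ((LinearMap.mul ℚ (V X)).compr₂ (deg X)).domRestrict₁₂ _ _ with hpair
  have hpinj : Function.Injective pair := by
    rw [← LinearMap.ker_eq_bot, LinearMap.ker_eq_bot']
    rintro ⟨b, hb⟩ h0
    apply Subtype.ext
    apply S.nondeg X j hj hj2 b hb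
    intro w hw
    rw [mul_comm]
    exact congrArg (fun F => F ⟨w, hw⟩) h0
  have hfin' : Module.Finite ℚ (gr X (dim X - j)) := Module.Finite.of_injective pair hpinj
  have hle : Module.finrank ℚ (gr X (dim X - j)) ≤ Module.finrank ℚ (gr X j) := by
    have := LinearMap.finrank_le_finrank_of_injective hpinj
    rwa [Subspace.dual_finrank_eq] at this
  have hmem : ∀ a ∈ gr X j, LinearMap.mulLeft ℚ l.prod a ∈ gr X (dim X - j) := by
    intro a ha
    have := S.mem_list l hl ha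
    rwa [hlen, show j + (dim X - 2 * j) = dim X - j by omega] at this
  set g : gr X j →ₗ[ℚ] gr X (dim X - j) := (LinearMap.mulLeft ℚ l.prod).restrict hmem with hg
  have hginj : Function.Injective g := by
    rw [← LinearMap.ker_eq_bot, LinearMap.ker_eq_bot']
    rintro ⟨a, ha⟩ h0
    apply Subtype.ext
    exact S.inj X hj hj2 l hl hlen ha (congrArg Subtype.val h0)
  have hgsurj : Function.Surjective g :=
    (LinearMap.injective_iff_surjective_of_finrank_eq_finrank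
      (le_antisymm (LinearMap.finrank_le_finrank_of_injective hginj) hle)).1 hginj
  obtain ⟨⟨a, ha⟩, h1⟩ := hgsurj ⟨y, hy⟩
  exact ⟨a, ha, congrArg Subtype.val h1⟩

end HRCore

end Pool.Agent.R910.Num
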